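import Pool.Agent.D0H49.AX.Stm
import Pool.Agent.Q65.AXI.BtP

/-! Project IW (helper49), package BOOT (helper13): the bootstrap after the time `T₂`. Adapted from
`Pool.Agent.Q65.AXI.BtP`. -/

set_option autoImplicit false

open MeasureTheory Set Metric Filter Topology
open scoped ContDiff
open H459R3.NS Pool.Agent.W268.NS Pool.Agent.Q67.VD

namespace Pool.Agent.D0H13.IW

open Pool.Agent.Q85.CC Pool.Agent.Q85.CL Pool.Agent.TH305.AX Pool.Agent.Q67.AXI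
open Pool.Agent.Q285.AXI (slice co_mono gsq_nn dis_int)
open Pool.Agent.Q65.AXI (boot_fin GD_nn gronw cyCompact)
open Pool.Agent.D0H49.AX

/-- `s ^ (1 / 2) ≤ 3 |log s| ^ (-2)`. -/
lemma half_log {s : ℝ} (hs : 0 < s) (hs1 : s < 1) :
    √s ≤ 3 * |Real.log s| ^ (-2 : ℝ) := by
  have hl : Real.log s < 0 := Real.log_neg hs hs1
  set y : ℝ := -Real.log s with hy
  have hy0 : 0 < y := by rw [hy]; linarith
  have habs : |Real.log s| = y := by rw [abs_of_neg hl]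
  have hsy : s = Real.exp (-y) := by rw [hy, neg_neg, Real.exp_log hs]
  have hsq : √s = Real.exp (-y / 2) := by
    rw [hsy]
    rw [Real.sqrt_eq_iff_mul_self_eq (Real.exp_pos _).le (Real.exp_pos _).le, ← Real.exp_add]
    congr 1; ring
  rw [habs, hsq, Real.rpow_neg hy0.le]
  have h2 : y ^ (2 : ℝ) = y ^ 2 := by norm_cast
  rw [h2, ← div_eq_mul_inv, le_div_iff₀ (by positivity)]
  have h3 : y / 4 ≤ Real.exp (y / 4 - 1) := by
    have := Real.add_one_le_exp (y / 4 - 1)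
    linarith
  have h4 : (y / 4) ^ 2 ≤ Real.exp (y / 4 - 1) ^ 2 :=
    pow_le_pow_left₀ (by positivity) h3 2
  have h5 : Real.exp (y / 4 - 1) ^ 2 = Real.exp (y / 2) * (Real.exp 1 ^ 2)⁻¹ := by
    rw [← Real.exp_nat_mul, ← Real.exp_nat_mul, ← Real.exp_neg, ← Real.exp_add]
    congr 1
    push_cast
    ring
  have he : (2.7 : ℝ) < Real.exp 1 := by linarith [Real.exp_one_gt_d9]
  have he2 : (16 / 3 : ℝ) ≤ Real.exp 1 ^ 2 := by nlinarith
  have h6 : (Real.exp 1 ^ 2)⁻¹ ≤ 3 / 16 := by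
    rw [inv_le_comm₀ (by positivity) (by norm_num)]
    norm_num at he2 ⊢
    linarith
  have h7 : y ^ 2 ≤ 3 * Real.exp (y / 2) := by
    have h8 := Real.exp_pos (y / 2)
    have h9 : Real.exp (y / 2) * (Real.exp 1 ^ 2)⁻¹ ≤ Real.exp (y / 2) * (3 / 16) :=
      mul_le_mul_of_nonneg_left h6 h8.le
    have h10 : (y / 4) ^ 2 = y ^ 2 / 16 := by ring
    rw [h5, h10] at h4
    linarith
  have h11 : Real.exp (-y / 2) * Real.exp (y / 2) = 1 := by
    rw [← Real.exp_add, show -y / 2 + y / 2 = 0 by ring, Real.exp_zero]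
  have h12 := mul_le_mul_of_nonneg_left h7 (Real.exp_pos (-y / 2)).le
  calc Real.exp (-y / 2) * y ^ 2 ≤ Real.exp (-y / 2) * (3 * Real.exp (y / 2)) := h12
    _ = 3 * (Real.exp (-y / 2) * Real.exp (y / 2)) := by ring
    _ = 3 := by rw [h11, mul_one]

/-- The logarithmic bound near the axis, if `|WW| ≤ Mx`. -/
lemma log_near (hAlg : StmAlg) {v : V → V} (hv : ContDiff ℝ ∞ v) (hax : Axi v) {c r h C' C₀ Mx : ℝ}
    (hC' : 0 ≤ C') (hMx : 1 ≤ Mx) (hC₀ : ∀ x ∈ Co c r h, |circ v x| ≤ C₀)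
    (hW : ∀ x ∈ Co c r h, |WW v x| ≤ Mx)
    (hlog : ∀ x ∈ Co c r h, (Mx ^ 2)⁻¹ ≤ sg x → |circ v x| ≤ C' * |Real.log (sg x)| ^ (-2 : ℝ)) :
    ∀ x ∈ Co c r h, |circ v x| ≤ C₀ ∧
      (sg x ≠ 0 → |circ v x| ≤ (C' + 3) * |Real.log (sg x)| ^ (-2 : ℝ)) := by
  intro x hx
  refine ⟨hC₀ x hx, fun hsg => ?_⟩
  have hsg0 : 0 < sg x := by
    have : 0 ≤ sg x := by unfold sg; positivity
    exact lt_of_le_of_ne this (Ne.symm hsg)
  have hlp : 0 ≤ |Real.log (sg x)| ^ (-2 : ℝ) := Real.rpow_nonneg (abs_nonneg _) _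
  rcases le_or_gt (Mx ^ 2)⁻¹ (sg x) with h1 | h1
  · have := hlog x hx h1
    nlinarith
  · have hMx0 : 0 < Mx := by linarith
    have hcw : circ v x = sg x * WW v x := (((hAlg v hv hax).2.2.2 x).2.2.2.2.2.2.2.2).1
    have hsg1 : sg x < 1 := by
      refine h1.trans_le ?_
      rw [inv_le_one₀ (by positivity)]
      nlinarith
    have h2 : |circ v x| ≤ √(sg x) := by
      rw [hcw, abs_mul, abs_of_pos hsg0]
      have h3 : √(sg x) * Mx ≤ 1 := by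
        have h4 : sg x * Mx ^ 2 ≤ 1 := by
          rw [lt_inv_comm₀ hsg0 (by positivity)] at h1
          have := mul_le_mul_of_nonneg_left h1.le hsg0.le
          rw [mul_inv_cancel₀ hsg0.ne'] at this
          exact this
        have h5 : (√(sg x) * Mx) ^ 2 ≤ 1 ^ 2 := by
          rw [mul_pow, Real.sq_sqrt hsg0.le, one_pow]; exact h4
        exact (pow_le_pow_iff_left₀ (by positivity) zero_le_one two_ne_zero).1 h5
      have h6 := Real.mul_self_sqrt hsg0.le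
      calc sg x * |WW v x| ≤ sg x * Mx := mul_le_mul_of_nonneg_left (hW x hx) hsg0.le
        _ = √(sg x) * (√(sg x) * Mx) := by rw [← mul_assoc, h6]
        _ ≤ √(sg x) * 1 := mul_le_mul_of_nonneg_left h3 (Real.sqrt_nonneg _)
        _ = √(sg x) := mul_one _
    have h3 := half_log hsg0 hsg1
    have h4 : 0 ≤ C' * |Real.log (sg x)| ^ (-2 : ℝ) := mul_nonneg hC' hlp
    linarith

/-- The dissipation of `OO` between the times `T₂` and `t`, if `|WW| ≤ M ≤ Mx`. -/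
theorem dissip2 (hAlg : StmAlg) (hJnt : StmJnt) (hDt : StmDt) (hYB : S_YB)
    (T E c R H K r h r1 h1 T₁ C' C₀ : ℝ) (u : ℝ → V → V) (p : ℝ → V → ℝ)
    (φ : V → ℝ) (hG : Geo T E c R H K r h r1 h1 T₁ C' C₀ u p φ)
    (hcirc : ∀ t ∈ Ico T₁ T, ∀ x ∈ Cy c r h, |circ (u t) x| ≤ C₀) :
    ∃ C₇ M₀ : ℝ, 0 ≤ C₇ ∧ 3 ≤ M₀ ∧ ∀ T₂ Z Mx : ℝ, T₂ ∈ Ico T₁ T → 1 ≤ Z →
      (∫ x, φ x ^ 2 * JJ (u T₂) x ^ 2) + (∫ x, φ x ^ 2 * OO (u T₂) x ^ 2) ≤ Z →
      (∀ t ∈ Ico T₂ T, ∀ x ∈ Co c r h, (Mx ^ 2)⁻¹ ≤ sg x →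
        |circ (u t) x| ≤ C' * |Real.log (sg x)| ^ (-2 : ℝ)) →
      M₀ ≤ Mx → ∀ t ∈ Ico T₂ T, (∀ s ∈ Icc T₂ t, ∀ x ∈ Co c r h, |WW (u s) x| ≤ Mx) →
      ∫ s in T₂..t, GD (fun x => φ x * OO (u s) x) ≤ C₇ * Z * Mx ^ (7 / 16 : ℝ) := by
  obtain ⟨hA, hK, hr1, hr1r, hrR, hr2, hh1, hh1h, hhH, hh, hT₁, hT₁T, hC', hC₀, hcut, hout⟩ := hG
  obtain ⟨C, M₀, hC, hM₀, hyd⟩ := hYB T E c R H K r h r1 h1 T₁ (C' + 3) C₀ u p φ
    ⟨hA, hK, hr1, hr1r, hrR, hr2, hh1, hh1h, hhH, hh, hT₁, hT₁T, by linarith, hC₀, hcut, hout⟩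
  have hr0 : 0 < r := hr1.trans hr1r
  have hsub : Co c r h ⊆ Co c R H := co_mono hr0 hrR hhH
  obtain ⟨G, hG⟩ : ∃ G : ℝ → ℝ, G = fun t => ∫ x in Co c r h, W221.NS.gsq (u t) x := ⟨_, rfl⟩
  have hGint : IntegrableOn G (Ioo 0 T) := by rw [hG]; exact dis_int hsub hA.dis
  have hGnn : ∀ t, 0 ≤ G t := by
    intro t
    rw [hG]
    exact integral_nonneg fun x => gsq_nn _ x
  obtain ⟨D, hD⟩ : ∃ D : ℝ, D = ∫ s in Ioo 0 T, G s := ⟨_, rfl⟩
  have hD0 : 0 ≤ D := by rw [hD]; exact integral_nonneg fun x => hGnn x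
  have hJJ0 : ∀ s, 0 ≤ ∫ x, φ x ^ 2 * JJ (u s) x ^ 2 := fun s => integral_nonneg fun x => by positivity
  have hOO0 : ∀ s, 0 ≤ ∫ x, φ x ^ 2 * OO (u s) x ^ 2 := fun s => integral_nonneg fun x => by positivity
  have hT0 : 0 < T := hT₁.trans hT₁T
  refine ⟨2 + C * (T + D), M₀, by positivity, hM₀, ?_⟩
  intro T₂ Z M hT₂ hZ hZe hlog hM t ht hW
  have hT₂0 : 0 < T₂ := hT₁.trans_le hT₂.1
  have hM1 : 1 ≤ M := by linarith
  have hMp : 0 < M := by linarith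
  obtain ⟨l, hl1, hl2, hl⟩ := hyd M hM
  have hl0 : 0 < l := (Real.rpow_pos_of_pos hMp _).trans_le hl1
  have hsub2 : Icc T₂ t ⊆ Ioo 0 T := fun s hs => ⟨hT₂0.trans_le hs.1, hs.2.trans_lt ht.2⟩
  obtain ⟨Y, hY⟩ : ∃ Y : ℝ → ℝ, Y = fun s => (∫ x, φ x ^ 2 * JJ (u s) x ^ 2)
      + l * ∫ x, φ x ^ 2 * OO (u s) x ^ 2 := ⟨_, rfl⟩
  have hYnn : ∀ s, 0 ≤ Y s := by
    intro s
    rw [hY]
    exact add_nonneg (hJJ0 s) (mul_nonneg hl0.le (hOO0 s))
  have hder : ∀ s ∈ Icc T₂ t, ∃ D' : ℝ, HasDerivAt Y D' s ∧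
      D' ≤ -(GD (fun x => φ x * JJ (u s) x) + l * GD (fun x => φ x * OO (u s) x)) +
        C * M ^ (3 / 8 : ℝ) * (1 + G s) + 0 * (T - s) ^ ((1 : ℝ) - 1) * (1 + Y s) := by
    intro s hs
    have hs' : s ∈ Ico T₁ T := ⟨hT₂.1.trans hs.1, hs.2.trans_lt ht.2⟩
    have hs2 : s ∈ Ico T₂ T := ⟨hs.1, hs.2.trans_lt ht.2⟩
    have hs3 := hsub2 hs
    obtain ⟨D', hD1, hD2⟩ := hl s hs'
      (log_near hAlg (slice hA.smooth_u hs3) (hA.axi s hs3) hC' hM1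
        (fun x hx => hcirc s hs' x ⟨hx.1.le, hx.2.le⟩) (hW s hs) (hlog s hs2)) (hW s hs)
    refine ⟨D', by rw [hY]; exact hD1, hD2.trans ?_⟩
    have h10 : G s = ∫ x in Co c r h, W221.NS.gsq (u s) x := by rw [hG]
    rw [h10]
    linarith
  choose! Y' hY1 hY2 using hder
  obtain ⟨hB, -⟩ := hDt T (fun s => OO (u s)) φ (hJnt T u hA.smooth_u).2.2.2 hcut.sm hcut.cs
  have hGi : IntegrableOn G (Icc T₂ t) := hGint.mono_set hsub2
  have hGD : ∫ s in T₂..t, G s ≤ D := by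
    rw [intervalIntegral.integral_of_le ht.1, hD]
    refine setIntegral_mono_set hGint ?_ ?_
    · exact Eventually.of_forall fun s => hGnn s
    · exact (Ioc_subset_Icc_self.trans hsub2).eventuallyLE
  have key := gronw T T₂ t 0 1 D l (C * M ^ (3 / 8 : ℝ)) Y (fun s => GD (fun x => φ x * JJ (u s) x))
    (fun s => GD (fun x => φ x * OO (u s) x)) G Y' ht.1 ht.2 one_pos le_rfl (by positivity) hT₂0.le
    hl0.le (fun s _ => hYnn s) hY1 (fun s _ => GD_nn _) (fun s _ => GD_nn _) (hB.mono hsub2) hGnn hGi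
    hGD hY2
  rw [zero_mul, neg_zero, Real.exp_zero, one_mul] at key
  have hYT : Y T₂ ≤ Z := by
    rw [hY]
    simp only
    have := mul_le_mul_of_nonneg_right hl2 (hOO0 T₂)
    linarith
  have hI0 : 0 ≤ ∫ s in T₂..t, GD (fun x => φ x * OO (u s) x) :=
    intervalIntegral.integral_nonneg ht.1 (fun s _ => GD_nn _)
  have hM38 : 1 ≤ M ^ (3 / 8 : ℝ) := Real.one_le_rpow hM1 (by norm_num)
  have hCTD : 0 ≤ C * (T + D) := by positivity
  have h11 : 1 + Y T₂ + C * M ^ (3 / 8 : ℝ) * (T + D) ≤ (2 + C * (T + D)) * Z * M ^ (3 / 8 : ℝ) := by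
    have a1 : (1 + Y T₂) * 1 ≤ 2 * Z * M ^ (3 / 8 : ℝ) :=
      mul_le_mul (by linarith) hM38 zero_le_one (by positivity)
    have a2 : C * (T + D) * 1 ≤ C * (T + D) * Z := mul_le_mul_of_nonneg_left hZ hCTD
    have a3 := mul_le_mul_of_nonneg_right a2 (show 0 ≤ M ^ (3 / 8 : ℝ) by positivity)
    linarith
  have h12 : l * ∫ s in T₂..t, GD (fun x => φ x * OO (u s) x) ≤ (2 + C * (T + D)) * Z * M ^ (3 / 8 : ℝ) :=
    key.trans h11
  have h13 : M ^ (-(1 / 16) : ℝ) * ∫ s in T₂..t, GD (fun x => φ x * OO (u s) x)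
      ≤ (2 + C * (T + D)) * Z * M ^ (3 / 8 : ℝ) :=
    (mul_le_mul_of_nonneg_right hl1 hI0).trans h12
  have h14 : M ^ (1 / 16 : ℝ) * M ^ (-(1 / 16) : ℝ) = 1 := by
    rw [← Real.rpow_add hMp, add_neg_cancel, Real.rpow_zero]
  have h15 : M ^ (1 / 16 : ℝ) * M ^ (3 / 8 : ℝ) = M ^ (7 / 16 : ℝ) := by
    rw [← Real.rpow_add hMp]
    norm_num
  have hMε : 0 < M ^ (1 / 16 : ℝ) := Real.rpow_pos_of_pos hMp _
  calc ∫ s in T₂..t, GD (fun x => φ x * OO (u s) x) =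
        M ^ (1 / 16 : ℝ) * (M ^ (-(1 / 16) : ℝ) * ∫ s in T₂..t, GD (fun x => φ x * OO (u s) x)) := by
        rw [← mul_assoc, h14, one_mul]
    _ ≤ M ^ (1 / 16 : ℝ) * ((2 + C * (T + D)) * Z * M ^ (3 / 8 : ℝ)) :=
        mul_le_mul_of_nonneg_left h13 hMε.le
    _ = (2 + C * (T + D)) * Z * (M ^ (1 / 16 : ℝ) * M ^ (3 / 8 : ℝ)) := by ring
    _ = _ := by rw [h15]

/-- IW-BOOT. -/
theorem t_BOOT (hAlg : StmAlg) (hJnt : StmJnt) (hDt : StmDt) (hU : StmU) (hYB : S_YB) (hSM : S_SM) :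
    S_BOOT := by
  intro T E c R H K r h r1 h1 T₁ C' C₀ u p φ hG hcirc
  obtain ⟨C₇, M₀, hC₇, hM₀, hdis⟩ := dissip2 hAlg hJnt hDt hYB T E c R H K r h r1 h1 T₁ C' C₀ u p φ
    hG hcirc
  obtain ⟨hA, hK, hr1, hr1r, hrR, hr2, hh1, hh1h, hhH, hh, hT₁, hT₁T, hC', hC₀, hcut, hout⟩ := hG
  have hr0 : 0 < r := hr1.trans hr1r
  have hh0 : 0 < h := hh1.trans hh1h
  have hr1' : r ≤ 1 := by
    by_contra hcon
    push Not at hcon
    have : Real.exp (-2) < 1 := by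
      rw [Real.exp_lt_one_iff]
      norm_num
    nlinarith
  have hsub : Co c r h ⊆ Co c R H := co_mono hr0 hrR hhH
  obtain ⟨CU, hCU, hU'⟩ := hU K c r h r1 h1 hK hr1 hr1r hr1' hh1 hh1h hh
  -- the smaller cylinder
  have hin : ∀ x ∈ Cy c r1 h1, x ∈ Co c r h := by
    intro x hx
    refine ⟨hx.1.trans_lt ?_, hx.2.trans_lt hh1h⟩
    exact pow_lt_pow_left₀ hr1r hr1.le (by norm_num)
  have hbdr : ∀ x ∈ Cy c r h, (r1 ^ 2 ≤ sg x ∨ h1 ≤ |x 2 - c|) → x ∈ Out c r h r1 h1 := fun x hx hb => ⟨hx, hb⟩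
  obtain ⟨CS, hCS, hSm'⟩ := hSM T E c R H r1 h1 T₁ K C₀ u p hA hr1 (hr1r.trans hrR) hh1 (hh1h.trans hhH)
    hT₁ hT₁T (by
      intro t ht x hx
      have hx' := hin x hx
      have hx'' : x ∈ Cy c r h := ⟨hx'.1.le, hx'.2.le⟩
      refine ⟨hcirc t ht x hx'', ?_⟩
      intro hb
      refine (hout t ht x ⟨hx'', ?_⟩).2.2.1
      rcases hb with hb | hb
      · left; exact hb.ge
      · right; exact hb.ge)
  -- the constant
  obtain ⟨C₈, hC₈⟩ : ∃ C₈ : ℝ, C₈ = CS * 2 * ((CU + 1) * (1 + C₇)) := ⟨_, rfl⟩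
  have hC₈0 : 0 ≤ C₈ := by rw [hC₈]; positivity
  have hC₈p : 0 ≤ C₈ ^ (16 / 9 : ℝ) := Real.rpow_nonneg hC₈0 _
  refine ⟨max (max M₀ K) (C₈ ^ (16 / 9 : ℝ)), ?_, ?_⟩
  · exact le_trans (by linarith) ((le_max_left M₀ K).trans (le_max_left _ _))
  intro T₂ Z Mx hT₂ hZ hCZ hZe hZW hlog
  have hT₂0 : 0 < T₂ := hT₁.trans_le hT₂.1
  set Cf : ℝ := max (max M₀ K) (C₈ ^ (16 / 9 : ℝ)) with hCf
  have hCf1 : M₀ ≤ Cf := (le_max_left M₀ K).trans (le_max_left _ _)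
  have hCfK : K ≤ Cf := (le_max_right M₀ K).trans (le_max_left _ _)
  have hCf8 : C₈ ^ (16 / 9 : ℝ) ≤ Cf := le_max_right _ _
  have hCf0 : 0 < Cf := by linarith
  have hZ0 : 0 < Z := by linarith
  have hZ4 : 1 ≤ Z ^ 4 := one_le_pow₀ hZ
  have hCZ1 : Cf ≤ Cf * Z ^ 4 := by nlinarith
  have hZCZ : Z ≤ Cf * Z ^ 4 := by
    have a1 : Z ≤ Z ^ 4 := by
      calc Z = Z ^ 1 := (pow_one Z).symm
        _ ≤ Z ^ 4 := pow_le_pow_right₀ hZ (by norm_num)
    have a2 : 1 * Z ^ 4 ≤ Cf * Z ^ 4 := mul_le_mul_of_nonneg_right (by linarith) (by linarith)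
    linarith
  have hM : M₀ ≤ Mx := by linarith
  have hM1 : 1 ≤ Mx := by linarith
  have hMp : 0 < Mx := by linarith
  obtain ⟨CV, hCV⟩ : ∃ CV : ℝ, CV = (CU + 1) * (1 + C₇ * Z) := ⟨_, rfl⟩
  have hC7Z : 0 ≤ C₇ * Z := by positivity
  have hCV0 : 1 ≤ CV := by rw [hCV]; nlinarith
  have hBc : ContinuousOn (fun s => GD (fun x => φ x * OO (u s) x)) (Ioo 0 T) :=
    (hDt T (fun s => OO (u s)) φ (hJnt T u hA.smooth_u).2.2.2 hcut.sm hcut.cs).1
  -- the a priori estimate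
  have hapr : ∀ t' ∈ Ico T₂ T, (∀ s ∈ Icc T₂ t', ∀ x ∈ Co c r h, |WW (u s) x| ≤ Mx) →
      ∀ x ∈ Cy c r h, |WW (u t') x| ≤ max K (CS * (1 + Z) * CV * Mx ^ (7 / 16 : ℝ)) := by
    intro t' ht'T hW x hx
    have ht'1 : t' ∈ Ico T₁ T := ⟨hT₂.1.trans ht'T.1, ht'T.2⟩
    by_cases hxo : r1 ^ 2 ≤ sg x ∨ h1 ≤ |x 2 - c|
    · exact ((hout t' ht'1 x (hbdr x hx hxo)).2.2.1).trans (le_max_left _ _)
    · push Not at hxo
      refine le_trans ?_ (le_max_right _ _)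
      obtain ⟨Λ, hΛ⟩ : ∃ Λ : ℝ, Λ = CV * Mx ^ (7 / 16 : ℝ) := ⟨_, rfl⟩
      have hM7 : 1 ≤ Mx ^ (7 / 16 : ℝ) := Real.one_le_rpow hM1 (by norm_num)
      have hΛ1 : 1 ≤ Λ := by rw [hΛ]; nlinarith
      have hΛ0 : 0 < Λ := by linarith
      obtain ⟨g, hg⟩ : ∃ g : ℝ → ℝ, g = fun s => √(CU * (1 + GD (fun x => φ x * OO (u s) x))) := ⟨_, rfl⟩
      have hsub' : Icc T₂ t' ⊆ Ioo 0 T := fun s hs => ⟨hT₂0.trans_le hs.1, hs.2.trans_lt ht'T.2⟩
      have hgc : ContinuousOn g (Icc T₂ t') := by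
        rw [hg]
        apply ContinuousOn.sqrt
        apply continuousOn_const.mul
        apply continuousOn_const.add
        exact hBc.mono hsub'
      have h5 := (hSm' T₂ hT₂ Z hZ0.le).1 (fun y hy => by
          have hy' := hin y hy
          exact hZW y ⟨hy'.1.le, hy'.2.le⟩) (1 / Λ)
        ⟨by positivity, by rw [div_le_one hΛ0]; exact hΛ1⟩ t' ht'T g hgc (by
        intro s hs y hy
        have hs' : s ∈ Ioo 0 T := hsub' hs
        obtain ⟨-, -, u3, -⟩ := hU' (u s) φ (slice hA.smooth_u hs') (hA.axi s hs')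
          (fun x hx => hA.divfree s hs' x (hsub hx)) hcut (hout s ⟨hT₂.1.trans hs.1, hs'.2⟩)
        have h6 := u3 y
        rw [hcut.one y hy, one_mul] at h6
        rw [hg]
        exact Real.abs_le_sqrt h6) (by
        -- the integral over the short interval
        obtain ⟨t₀, ht₀⟩ : ∃ t₀ : ℝ, t₀ = max T₂ (t' - 1 / Λ) := ⟨_, rfl⟩
        rw [← ht₀]
        have ht₀1 : T₂ ≤ t₀ := by rw [ht₀]; exact le_max_left _ _
        have ht₀2 : t' - 1 / Λ ≤ t₀ := by rw [ht₀]; exact le_max_right _ _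
        have ht₀3 : t₀ ≤ t' := by
          rw [ht₀]
          refine max_le ht'T.1 ?_
          have : 0 < 1 / Λ := by positivity
          linarith
        have hBcc : ContinuousOn (fun s => GD (fun x => φ x * OO (u s) x)) (Icc T₂ t') := hBc.mono hsub'
        have hIcc : Icc t₀ t' ⊆ Icc T₂ t' := Icc_subset_Icc_left ht₀1
        have i1 : IntervalIntegrable g volume t₀ t' :=
          ((hgc.mono hIcc).intervalIntegrable_of_Icc ht₀3)
        have i2 : IntervalIntegrable (fun s => GD (fun x => φ x * OO (u s) x)) volume t₀ t' :=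
          ((hBcc.mono hIcc).intervalIntegrable_of_Icc ht₀3)
        have i3 : IntervalIntegrable (fun s => GD (fun x => φ x * OO (u s) x)) volume T₂ t₀ :=
          ((hBcc.mono (Icc_subset_Icc_right ht₀3)).intervalIntegrable_of_Icc ht₀1)
        have hpt : ∀ s ∈ Icc t₀ t', g s ≤ Λ / 2 + CU / (2 * Λ) * (1 + GD (fun x => φ x * OO (u s) x)) := by
          intro s _
          rw [hg]
          simp only
          have hX : 0 ≤ CU * (1 + GD (fun x => φ x * OO (u s) x)) := mul_nonneg hCU (by linarith [GD_nn (fun x => φ x * OO (u s) x)])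
          have h7 := Real.sq_sqrt hX
          have h8 : √(CU * (1 + GD (fun x => φ x * OO (u s) x))) ≤ Λ / 2 + (CU * (1 + GD (fun x => φ x * OO (u s) x))) / (2 * Λ) := by
            rw [← h7, Real.sqrt_sq (Real.sqrt_nonneg _)]
            have h9 : Λ / 2 + √(CU * (1 + GD (fun x => φ x * OO (u s) x))) ^ 2 / (2 * Λ) - √(CU * (1 + GD (fun x => φ x * OO (u s) x))) =
                (Λ - √(CU * (1 + GD (fun x => φ x * OO (u s) x)))) ^ 2 / (2 * Λ) := by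
              field_simp
              ring
            have h10 : 0 ≤ (Λ - √(CU * (1 + GD (fun x => φ x * OO (u s) x)))) ^ 2 / (2 * Λ) := by positivity
            linarith
          refine h8.trans (le_of_eq ?_)
          ring
        have hint := intervalIntegral.integral_mono_on ht₀3 i1
          ((intervalIntegrable_const (c := Λ / 2)).add (((intervalIntegrable_const (c := (1 : ℝ))).add i2).const_mul (CU / (2 * Λ)))) hpt
        refine hint.trans ?_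
        rw [intervalIntegral.integral_add intervalIntegrable_const (((intervalIntegrable_const (c := (1 : ℝ))).add i2).const_mul (CU / (2 * Λ))),
          intervalIntegral.integral_const_mul, intervalIntegral.integral_add intervalIntegrable_const i2,
          intervalIntegral.integral_const, intervalIntegral.integral_const, smul_eq_mul, smul_eq_mul, mul_one]
        have hlen : t' - t₀ ≤ 1 / Λ := by linarith
        have hlen1 : t' - t₀ ≤ 1 := by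
          have : 1 / Λ ≤ 1 := by rw [div_le_one hΛ0]; exact hΛ1
          linarith
        have hIB : ∫ s in t₀..t', GD (fun x => φ x * OO (u s) x) ≤ C₇ * Z * Mx ^ (7 / 16 : ℝ) := by
          have h11 := hdis T₂ Z Mx hT₂ hZ hZe hlog hM t' ht'T hW
          rw [← intervalIntegral.integral_add_adjacent_intervals i3 i2] at h11
          have h12 : 0 ≤ ∫ s in T₂..t₀, GD (fun x => φ x * OO (u s) x) :=
            intervalIntegral.integral_nonneg ht₀1 (fun s _ => GD_nn _)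
          linarith
        have h13 : (t' - t₀) * (Λ / 2) ≤ 1 / 2 := by
          calc (t' - t₀) * (Λ / 2) ≤ 1 / Λ * (Λ / 2) := mul_le_mul_of_nonneg_right hlen (by positivity)
            _ = 1 / 2 := by field_simp
        have h14 : CU / (2 * Λ) * (t' - t₀ + ∫ s in t₀..t', GD (fun x => φ x * OO (u s) x)) ≤ 1 / 2 := by
          have h15 : t' - t₀ + ∫ s in t₀..t', GD (fun x => φ x * OO (u s) x) ≤ (1 + C₇ * Z) * Mx ^ (7 / 16 : ℝ) := by
            nlinarith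
          have h16 : CU / (2 * Λ) * ((1 + C₇ * Z) * Mx ^ (7 / 16 : ℝ)) ≤ 1 / 2 := by
            rw [div_mul_eq_mul_div, div_le_iff₀ (by positivity), hΛ, hCV]
            have : 0 ≤ (1 + C₇ * Z) * Mx ^ (7 / 16 : ℝ) := by positivity
            nlinarith
          exact (mul_le_mul_of_nonneg_left h15 (by positivity)).trans h16
        linarith) x ⟨hxo.1.le, hxo.2.le⟩
      refine h5.trans (le_of_eq ?_)
      rw [hΛ]
      field_simp
  -- the first time at which the value `Mx` is attained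
  by_contra hcon
  push Not at hcon
  obtain ⟨t, ht, x, hx, hxM⟩ := hcon
  have hsub2 : Icc T₂ t ⊆ Ioo 0 T := fun s hs => ⟨hT₂0.trans_le hs.1, hs.2.trans_lt ht.2⟩
  have hWj := (hJnt T u hA.smooth_u).2.1.continuousOn
  have hxC : x ∈ Cy c r h := ⟨hx.1.le, hx.2.le⟩
  have hcont : ContinuousOn (fun z : ℝ × V => |WW (u z.1) z.2|) (Icc T₂ t ×ˢ Cy c r h) :=
    (hWj.mono (prod_mono hsub2 (subset_univ _))).abs
  have hcomp : IsCompact (Icc T₂ t ×ˢ Cy c r h) := isCompact_Icc.prod (cyCompact c r h)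
  have hScomp : IsCompact ((Icc T₂ t ×ˢ Cy c r h) ∩ (fun z : ℝ × V => |WW (u z.1) z.2|) ⁻¹' (Ici Mx)) :=
    hcomp.of_isClosed_subset (hcont.preimage_isClosed_of_isClosed hcomp.isClosed isClosed_Ici)
      inter_subset_left
  have hSne : ((Icc T₂ t ×ˢ Cy c r h) ∩ (fun z : ℝ × V => |WW (u z.1) z.2|) ⁻¹' (Ici Mx)).Nonempty :=
    ⟨(t, x), ⟨⟨ht.1, le_rfl⟩, hxC⟩, hxM.le⟩
  obtain ⟨⟨t₀, x₀⟩, ⟨⟨ht₀, hx₀⟩, hW₀⟩, hmin⟩ := hScomp.exists_isMinOn hSne continuous_fst.continuousOn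
  have hW₀' : Mx ≤ |WW (u t₀) x₀| := hW₀
  have hbefore : ∀ s ∈ Ico T₂ t₀, ∀ y ∈ Cy c r h, |WW (u s) y| < Mx := by
    intro s hs y hy
    by_contra hge
    push Not at hge
    have hmem : (s, y) ∈ (Icc T₂ t ×ˢ Cy c r h) ∩ (fun z : ℝ × V => |WW (u z.1) z.2|) ⁻¹' (Ici Mx) :=
      ⟨⟨⟨hs.1, hs.2.le.trans ht₀.2⟩, hy⟩, hge⟩
    have h20 : t₀ ≤ s := hmin hmem
    exact absurd hs.2 (not_lt.2 h20)
  have hT₂t₀ : T₂ < t₀ := by
    rcases eq_or_lt_of_le ht₀.1 with h21 | h21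
    · exfalso
      have ht₀x : |WW (u T₂) x₀| ≤ Z := hZW x₀ hx₀
      have h22 : T₂ = t₀ := h21
      rw [← h22] at hW₀'
      linarith
    · exact h21
  have hall : ∀ s ∈ Icc T₂ t₀, ∀ y ∈ Co c r h, |WW (u s) y| ≤ Mx := by
    intro s hs y hy
    have hyC : y ∈ Cy c r h := ⟨hy.1.le, hy.2.le⟩
    rcases lt_or_eq_of_le hs.2 with h23 | h23
    · exact (hbefore s ⟨hs.1, h23⟩ y hyC).le
    · rw [h23]
      have hct : ContinuousOn (fun s : ℝ => |WW (u s) y|) (Icc T₂ t) :=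
        hcont.comp (f := fun s : ℝ => (s, y)) (by fun_prop) (fun s hs => ⟨hs, hyC⟩)
      have hcl : ContinuousWithinAt (fun s : ℝ => |WW (u s) y|) (Ico T₂ t₀) t₀ :=
        (hct t₀ ht₀).mono (fun s hs => ⟨hs.1, hs.2.le.trans ht₀.2⟩)
      have hmem : t₀ ∈ closure (Ico T₂ t₀) := by
        rw [closure_Ico hT₂t₀.ne]
        exact ⟨hT₂t₀.le, le_rfl⟩
      exact hcl.closure_le hmem continuousWithinAt_const (fun s hs => (hbefore s hs y hyC).le)
  have hS := hapr t₀ ⟨ht₀.1, ht₀.2.trans_lt ht.2⟩ hall x₀ hx₀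
  have hS2 : Mx ≤ max K (C₈ * Z ^ 2 * (max M₀ Mx) ^ (7 / 16 : ℝ)) := by
    rw [max_eq_right hM]
    refine hW₀'.trans (hS.trans (max_le_max le_rfl ?_))
    have h24 : CS * (1 + Z) * CV ≤ C₈ * Z ^ 2 := by
      rw [hC₈, hCV]
      have b1 : 1 + Z ≤ 2 * Z := by linarith
      have b2 : 1 + C₇ * Z ≤ (1 + C₇) * Z := by nlinarith
      have b3 : CS * (1 + Z) ≤ CS * (2 * Z) := mul_le_mul_of_nonneg_left b1 hCS
      have b4 : (CU + 1) * (1 + C₇ * Z) ≤ (CU + 1) * ((1 + C₇) * Z) :=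
        mul_le_mul_of_nonneg_left b2 (by linarith)
      calc CS * (1 + Z) * ((CU + 1) * (1 + C₇ * Z))
          ≤ CS * (2 * Z) * ((CU + 1) * ((1 + C₇) * Z)) :=
            mul_le_mul b3 b4 (by positivity) (by positivity)
        _ = CS * 2 * ((CU + 1) * (1 + C₇)) * Z ^ 2 := by ring
    exact mul_le_mul_of_nonneg_right h24 (Real.rpow_nonneg hMp.le _)
  have hfin := boot_fin Mx K M₀ (C₈ * Z ^ 2) (by positivity) (by linarith) hS2
  have h25 : (C₈ * Z ^ 2) ^ (16 / 9 : ℝ) ≤ Cf * Z ^ 4 := by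
    rw [Real.mul_rpow hC₈0 (by positivity)]
    have h26 : (Z ^ 2) ^ (16 / 9 : ℝ) ≤ Z ^ 4 := by
      have h27 : (Z ^ 2 : ℝ) = Z ^ (2 : ℝ) := by norm_cast
      have h28 : (Z ^ 4 : ℝ) = Z ^ (4 : ℝ) := by norm_cast
      rw [h27, h28, ← Real.rpow_mul hZ0.le]
      exact Real.rpow_le_rpow_of_exponent_le hZ (by norm_num)
    exact mul_le_mul hCf8 h26 (Real.rpow_nonneg (by positivity) _) hCf0.le
  have h29 : max (max M₀ K) ((C₈ * Z ^ 2) ^ (16 / 9 : ℝ)) ≤ Cf * Z ^ 4 :=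
    max_le (max_le (hCf1.trans hCZ1) (hCfK.trans hCZ1)) h25
  linarith

end Pool.Agent.D0H13.IW
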