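import Pool.Agent.D0H49.AX.Stm
import Pool.Agent.Q257.AXI.H0

/-! Project IW (helper49), package INT (helper13): interpolation. -/

set_option autoImplicit false

open MeasureTheory Set Metric Filter Topology
open scoped ContDiff
open H459R3.NS Pool.Agent.W268.NS Pool.Agent.Q67.VD

namespace Pool.Agent.D0H13.IW

open Pool.Agent.Q85.CC Pool.Agent.Q85.CL Pool.Agent.TH305.AX Pool.Agent.Q67.AXI
open Pool.Agent.Q257.AXI (int_pd1 pd_mul1 sm_sg)
open Pool.Agent.D0H49.AX

lemma Co_sub (c r h : ℝ) (hr : 0 < r) :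
    Co c r h ⊆ closedBall (![0, 0, c] : V) (r + |h|) := by
  intro x hx
  obtain ⟨h1, h2⟩ := hx
  have hh := abs_nonneg h
  rw [mem_closedBall, dist_pi_le_iff (by positivity)]
  have e0 : x 0 ^ 2 < r ^ 2 := by unfold sg at h1; nlinarith [sq_nonneg (x 1)]
  have e1 : x 1 ^ 2 < r ^ 2 := by unfold sg at h1; nlinarith [sq_nonneg (x 0)]
  have e0' := abs_lt_of_sq_lt_sq e0 hr.le
  have e1' := abs_lt_of_sq_lt_sq e1 hr.le
  have e2 : |x 2 - c| ≤ r + |h| := by
    have := le_abs_self h
    linarith
  intro i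
  fin_cases i
  · show dist (x 0) 0 ≤ r + |h|
    rw [Real.dist_eq, sub_zero]; linarith
  · show dist (x 1) 0 ≤ r + |h|
    rw [Real.dist_eq, sub_zero]; linarith
  · show dist (x 2) c ≤ r + |h|
    rw [Real.dist_eq]; exact e2

lemma Co_meas (c r h : ℝ) : MeasurableSet (Co c r h) := by
  have h1 : IsOpen {x : V | sg x < r ^ 2} := isOpen_lt sm_sg.continuous continuous_const
  have h2 : IsOpen {x : V | |x 2 - c| < h} :=
    isOpen_lt (((continuous_apply 2).sub continuous_const).abs) continuous_const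
  exact (h1.inter h2).measurableSet

lemma gsq_ct {v : V → V} (hv : ContDiff ℝ ∞ v) : Continuous (W221.NS.gsq v) := by
  unfold W221.NS.gsq
  refine continuous_finset_sum _ fun i _ => continuous_finset_sum _ fun j _ => ?_
  have h1 : Continuous (pd j (fun y => v y i)) :=
    ((sm_cmp hv i).continuous_fderiv (by norm_cast)).clm_apply continuous_const
  exact h1.pow 2

lemma gsq_io {v : V → V} (hv : ContDiff ℝ ∞ v) (c r h : ℝ) (hr : 0 < r) :
    IntegrableOn (W221.NS.gsq v) (Co c r h) :=
  ((gsq_ct hv).continuousOn.integrableOn_compact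
    (isCompact_closedBall (![0, 0, c] : V) (r + |h|))).mono_set (Co_sub c r h hr)

/-- Interpolation for one function. -/
lemma core {c r h : ℝ} (hr : 0 < r) {v : V → V} (hv : ContDiff ℝ ∞ v) {φ f : V → ℝ}
    (hφ : ContDiff ℝ ∞ φ) (hφs : HasCompactSupport φ) (hφ0 : ∀ x, 0 ≤ φ x) (hφ1 : ∀ x, φ x ≤ 1)
    (hsup : tsupport φ ⊆ Co c r h) (hf : ContDiff ℝ ∞ f)
    (hfb : ∀ x, sg x * f x ^ 2 ≤ 2 * W221.NS.gsq v x) :
    (∫ x, φ x ^ 2 * f x ^ 2) ^ 2
      ≤ 2 * (∫ x in Co c r h, W221.NS.gsq v x) * GD (fun x => φ x * f x) := by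
  set F : V → ℝ := fun x => φ x * f x with hFd
  have hF : ContDiff ℝ ∞ F := hφ.mul hf
  have hFs : HasCompactSupport F := hφs.mul_right
  have hFc : Continuous F := hF.continuous
  have hF1 : Differentiable ℝ F := hF.differentiable (by norm_cast)
  have hpc : ∀ j : Fin 3, Continuous (pd j F) := fun j =>
    (hF.continuous_fderiv (by norm_cast)).clm_apply continuous_const
  have hps : ∀ j : Fin 3, HasCompactSupport (pd j F) := fun j =>
    hFs.fderiv_apply (𝕜 := ℝ) (Pi.single j 1)
  -- the integral of the divergence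
  have hdiv : ∀ j : Fin 3, ∫ x, (F x * F x + 2 * (F x * (x j * pd j F x))) = 0 := by
    intro j
    have hG : ContDiff ℝ 1 (fun x : V => x j * (F x * F x)) :=
      ((sm_crd j).mul (hF.mul hF)).of_le (by norm_cast)
    have hGs : HasCompactSupport (fun x : V => x j * (F x * F x)) :=
      (hFs.mul_left (f := F)).mul_left
    have := (int_pd1 hG hGs j).2
    rw [← this]
    congr 1
    funext x
    have h1 := pd_mul1 (f := fun y : V => y j) (g := fun y => F y * F y)
      ((sm_crd j).differentiable (by norm_cast)) (hF1.mul hF1) j x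
    have h2 := pd_mul1 hF1 hF1 j x
    have h3 := congrFun (pd_crd j j) x
    simp only [if_true] at h3
    rw [h1, h2, h3]
    ring
  have hcs : ∀ g : V → ℝ, Continuous g → Integrable (fun x => F x * g x) := fun g hg =>
    (hFc.mul hg).integrable_of_hasCompactSupport hFs.mul_right
  have hiF : Integrable (fun x => F x * F x) := hcs F hFc
  have hij : ∀ j : Fin 3, Integrable (fun x : V => F x * (x j * pd j F x)) := fun j =>
    hcs _ ((continuous_apply j).mul (hpc j))
  have hRR : ∫ x, F x * F x = -∫ x, F x * RR F x := by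
    have e : ∀ j : Fin 3, (∫ x, F x * F x) + 2 * ∫ x : V, F x * (x j * pd j F x) = 0 := by
      intro j
      rw [← integral_const_mul, ← integral_add hiF ((hij j).const_mul 2)]
      exact hdiv j
    have e2 : ∫ x, F x * RR F x = (∫ x : V, F x * (x 0 * pd 0 F x)) + ∫ x : V, F x * (x 1 * pd 1 F x) := by
      rw [← integral_add (hij 0) (hij 1)]
      congr 1
      funext x
      unfold RR
      ring
    have e0 := e 0
    have e1 := e 1
    rw [e2]; linarith
  have hRc : Continuous (RR F) := by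
    unfold RR
    exact ((continuous_apply 0).mul (hpc 0)).add ((continuous_apply 1).mul (hpc 1))
  have hiR : Integrable (fun x => F x * RR F x) := hcs _ hRc
  have hiS : Integrable (fun x => sg x * F x ^ 2) := by
    have := hcs (fun x => sg x * F x) (sm_sg.continuous.mul hFc)
    refine this.congr (Filter.Eventually.of_forall fun x => ?_)
    simp only
    ring
  have hiG : Integrable (gr2 F) := by
    unfold gr2
    refine integrable_finset_sum _ fun i _ => ?_
    have : Integrable (fun x => pd i F x * pd i F x) :=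
      ((hpc i).mul (hpc i)).integrable_of_hasCompactSupport (hps i).mul_right
    refine this.congr (Filter.Eventually.of_forall fun x => ?_)
    simp only
    ring
  -- Cauchy-Schwarz
  have hq : ∀ t : ℝ, 0 ≤ (∫ x, sg x * F x ^ 2) * (t * t) + (2 * ∫ x, F x * RR F x) * t + GD F := by
    intro t
    have e : (∫ x, sg x * F x ^ 2) * (t * t) + (2 * ∫ x, F x * RR F x) * t + GD F
        = ∫ x, ((t * t) * (sg x * F x ^ 2) + (2 * t) * (F x * RR F x) + gr2 F x) := by
      have i1 : Integrable (fun x => (t * t) * (sg x * F x ^ 2)) := hiS.const_mul (t * t)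
      have i2 : Integrable (fun x => (2 * t) * (F x * RR F x)) := hiR.const_mul (2 * t)
      have i3 : Integrable (fun x => (t * t) * (sg x * F x ^ 2) + (2 * t) * (F x * RR F x)) := i1.add i2
      rw [integral_add i3 hiG, integral_add i1 i2, integral_const_mul, integral_const_mul]
      unfold GD
      ring
    rw [e]
    refine integral_nonneg fun x => ?_
    have e3 : (t * t) * (sg x * F x ^ 2) + (2 * t) * (F x * RR F x) + gr2 F x
        = (F x * t * x 0 + pd 0 F x) ^ 2 + (F x * t * x 1 + pd 1 F x) ^ 2 + pd 2 F x ^ 2 := by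
      unfold gr2 RR sg
      rw [Fin.sum_univ_three]
      ring
    show 0 ≤ (t * t) * (sg x * F x ^ 2) + (2 * t) * (F x * RR F x) + gr2 F x
    rw [e3]
    positivity
  have hd := discrim_le_zero hq
  unfold discrim at hd
  -- the weighted integral
  have hw : ∫ x, sg x * F x ^ 2 ≤ 2 * ∫ x in Co c r h, W221.NS.gsq v x := by
    have h0 : ∀ x, x ∉ Co c r h → sg x * F x ^ 2 = 0 := by
      intro x hx
      have : φ x = 0 := by
        by_contra hne
        exact hx (hsup (subset_tsupport _ hne))
      simp only [hFd, this]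
      ring
    rw [← setIntegral_eq_integral_of_forall_compl_eq_zero h0, ← integral_const_mul]
    refine setIntegral_mono_on hiS.integrableOn ((gsq_io hv c r h hr).const_mul 2) (Co_meas c r h) ?_
    intro x _
    have h1 := hfb x
    have h2 := hφ0 x
    have h3 := hφ1 x
    have h4 : 0 ≤ sg x * f x ^ 2 := mul_nonneg (sg_nonneg x) (sq_nonneg _)
    have h5 : φ x ^ 2 ≤ 1 := by nlinarith
    simp only [hFd]
    calc sg x * (φ x * f x) ^ 2 = φ x ^ 2 * (sg x * f x ^ 2) := by ring
      _ ≤ 1 * (sg x * f x ^ 2) := mul_le_mul_of_nonneg_right h5 h4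
      _ ≤ _ := by linarith
  have hGD : 0 ≤ GD F := by
    unfold GD
    refine integral_nonneg fun x => ?_
    unfold gr2
    exact Finset.sum_nonneg fun i _ => sq_nonneg _
  have e4 : ∫ x, φ x ^ 2 * f x ^ 2 = ∫ x, F x * F x := by
    congr 1
    funext x
    simp only [hFd]
    ring
  rw [e4, hRR]
  have e5 := mul_le_mul_of_nonneg_right hw hGD
  nlinarith

theorem t_INT : StmAlg → S_INT := by
  intro hAlg c r h r1 h1 K v φ hr hv hax hcut
  obtain ⟨⟨-, -, hJ, hO⟩, -, -, hx⟩ := hAlg v hv hax
  have hcomp : ∀ x, sg x * JJ v x ^ 2 + sg x * OO v x ^ 2 ≤ 2 * W221.NS.gsq v x := by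
    intro x
    obtain ⟨-, -, a0, a1, -⟩ := hx x
    have b0 : vort v x 0 = pd 1 (fun y => v y 2) x - pd 2 (fun y => v y 1) x := rfl
    have b1 : vort v x 1 = pd 2 (fun y => v y 0) x - pd 0 (fun y => v y 2) x := rfl
    have e : sg x * JJ v x ^ 2 + sg x * OO v x ^ 2 = vort v x 0 ^ 2 + vort v x 1 ^ 2 := by
      rw [a0, a1]; unfold sg; ring
    rw [e, b0, b1]
    unfold W221.NS.gsq
    simp only [Fin.sum_univ_three]
    nlinarith [sq_nonneg (pd 1 (fun y => v y 2) x + pd 2 (fun y => v y 1) x),
      sq_nonneg (pd 2 (fun y => v y 0) x + pd 0 (fun y => v y 2) x),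
      sq_nonneg (pd 0 (fun y => v y 0) x), sq_nonneg (pd 1 (fun y => v y 0) x),
      sq_nonneg (pd 0 (fun y => v y 1) x), sq_nonneg (pd 1 (fun y => v y 1) x),
      sq_nonneg (pd 2 (fun y => v y 2) x)]
  constructor
  · refine core hr hv hcut.sm hcut.cs hcut.nn hcut.le hcut.supp hJ fun x => ?_
    have := hcomp x
    have h2 : 0 ≤ sg x * OO v x ^ 2 := mul_nonneg (sg_nonneg x) (sq_nonneg _)
    linarith
  · refine core hr hv hcut.sm hcut.cs hcut.nn hcut.le hcut.supp hO fun x => ?_
    have := hcomp x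
    have h2 : 0 ≤ sg x * JJ v x ^ 2 := mul_nonneg (sg_nonneg x) (sq_nonneg _)
    linarith

end Pool.Agent.D0H13.IW
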