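import Pool.Agent.D0H49.AX.Stm

/-! Project IW (helper49), package ODE (helper13): the smoothing ODE lemma. -/

set_option autoImplicit false

open MeasureTheory Set Metric Filter Topology
open scoped ContDiff

namespace Pool.Agent.D0H13.IW

open Pool.Agent.D0H49.AX

/-- The integral of an affine function of `G`. -/
lemma aff_int {a b α β : ℝ} {G : ℝ → ℝ} (hab : a ≤ b) (hG : IntegrableOn G (Icc a b)) :
    IntegrableOn (fun s => α + β * G s) (Icc a b) ∧
      ∫ s in a..b, (α + β * G s) = α * (b - a) + β * ∫ s in a..b, G s := by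
  have hGi : IntervalIntegrable G volume a b := by
    rw [intervalIntegrable_iff_integrableOn_Icc_of_le hab]; exact hG
  constructor
  · exact (integrableOn_const (by simp)).add (hG.const_mul β)
  · rw [intervalIntegral.integral_add intervalIntegrable_const (hGi.const_mul β)]
    simp [mul_comm]

/-- There is a good time. -/
lemma good {s₀ s₁ D Q P l : ℝ} {Y A B G Y' : ℝ → ℝ} (h01 : s₀ < s₁) (hP : s₁ - s₀ ≤ P)
    (hP1 : P ≤ 1) (hQ : 0 ≤ Q) (hD : 0 ≤ D)
    (hY' : ∀ s ∈ Icc s₀ s₁, HasDerivAt Y (Y' s) s)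
    (hG : ∀ s, 0 ≤ G s) (hGi : IntegrableOn G (Icc s₀ s₁))
    (hGD : ∫ s in s₀..s₁, G s ≤ D)
    (hd : ∀ s ∈ Icc s₀ s₁, Y' s ≤ -(A s + l * B s) + Q * (1 + G s) + Q / P * (1 + Y s))
    (hi : ∀ s ∈ Icc s₀ s₁, Y s ^ 2 ≤ 4 * (1 + G s) * (A s + l * B s)) :
    ∃ t₀ ∈ Icc s₀ ((s₀ + s₁) / 2),
      Y t₀ ≤ 32 * (1 + Q) * (1 + D) ^ 2 / (P * ((s₁ - s₀) / 2) ^ 2) := by
  set L : ℝ := (s₁ - s₀) / 2 with hL
  set Z : ℝ := 32 * (1 + Q) * (1 + D) ^ 2 / (P * L ^ 2) with hZ
  have hP0 : 0 < P := by linarith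
  have hL0 : 0 < L := by rw [hL]; linarith
  have hL1 : L ≤ 1 / 2 := by rw [hL]; linarith
  have hLP : L ≤ P := by rw [hL]; linarith
  have hmid : (s₀ + s₁) / 2 = s₀ + L := by rw [hL]; ring
  by_contra hcon
  push Not at hcon
  have hZY : ∀ s ∈ Icc s₀ (s₀ + L), Z < Y s := by
    intro s hs; exact hcon s (by rw [hmid]; exact hs)
  have hPL : 0 < P * L ^ 2 := by positivity
  have hPL1 : P * L ^ 2 ≤ 1 := by nlinarith
  have hZ32 : 32 ≤ Z := by
    rw [hZ, le_div_iff₀ hPL]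
    have h1 : (1 : ℝ) ≤ (1 + Q) * (1 + D) ^ 2 := by nlinarith [sq_nonneg D, mul_nonneg hQ hD, mul_nonneg hQ (sq_nonneg D)]
    nlinarith
  have hZ0 : 0 < Z := by linarith
  have hZe : Z * (P * L ^ 2) = 32 * (1 + Q) * (1 + D) ^ 2 := by
    rw [hZ]; field_simp
  have hsub : Icc s₀ (s₀ + L) ⊆ Icc s₀ s₁ := by
    apply Icc_subset_Icc le_rfl; rw [hL]; linarith
  set θ : ℝ := L / (L + D) with hθ
  have hLD : 0 < L + D := by linarith
  -- the pointwise inequality
  set α : ℝ := -(1 / 4) * (2 * θ - θ ^ 2) + Q / Z ^ 2 + 2 * Q / (P * Z) with hα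
  set β : ℝ := (1 / 4) * θ ^ 2 + Q / Z ^ 2 with hβ
  have hpt : ∀ s ∈ Icc s₀ (s₀ + L), Y' s / Y s ^ 2 ≤ α + β * G s := by
    intro s hs
    have hYs := hZY s hs
    have hY0 : 0 < Y s := by linarith
    have hs' := hsub hs
    have h1 := hd s hs'
    have h2 := hi s hs'
    have hg := hG s
    have hg1 : 0 < 1 + G s := by linarith
    rw [div_le_iff₀ (by positivity)]
    refine h1.trans ?_
    have e1 : Y s ^ 2 / (4 * (1 + G s)) ≤ A s + l * B s := by
      rw [div_le_iff₀ (by positivity)]; linarith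
    have e2 : (2 * θ - θ ^ 2 * (1 + G s)) ≤ 1 / (1 + G s) := by
      rw [le_div_iff₀ hg1]; nlinarith [sq_nonneg (1 - θ * (1 + G s))]
    have e3 : Q * (1 + G s) ≤ Q * (1 + G s) / Z ^ 2 * Y s ^ 2 := by
      rw [div_mul_eq_mul_div, le_div_iff₀ (by positivity)]
      apply mul_le_mul_of_nonneg_left _ (by positivity)
      exact pow_le_pow_left₀ hZ0.le hYs.le 2
    have e4 : Q / P * (1 + Y s) ≤ 2 * Q / (P * Z) * Y s ^ 2 := by
      have : 2 * Q / (P * Z) * Y s ^ 2 = Q / P * (2 * Y s ^ 2 / Z) := by field_simp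
      rw [this]
      apply mul_le_mul_of_nonneg_left _ (by positivity)
      rw [le_div_iff₀ hZ0]
      nlinarith
    have e5 : Y s ^ 2 / (4 * (1 + G s)) = 1 / 4 * (1 / (1 + G s)) * Y s ^ 2 := by field_simp
    have e6 : 1 / 4 * (2 * θ - θ ^ 2 * (1 + G s)) * Y s ^ 2 ≤ 1 / 4 * (1 / (1 + G s)) * Y s ^ 2 := by
      apply mul_le_mul_of_nonneg_right _ (by positivity)
      linarith
    have e7 : (α + β * G s) * Y s ^ 2 = -(1 / 4 * (2 * θ - θ ^ 2 * (1 + G s)) * Y s ^ 2)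
        + Q * (1 + G s) / Z ^ 2 * Y s ^ 2 + 2 * Q / (P * Z) * Y s ^ 2 := by
      rw [hα, hβ]; ring
    rw [e7]
    linarith
  -- integrate
  have hle : s₀ ≤ s₀ + L := by linarith
  have hint := aff_int (α := α) (β := β) hle (hGi.mono_set hsub)
  have hder : ∀ x ∈ Icc s₀ (s₀ + L), HasDerivAt (fun s => -(Y s)⁻¹) (Y' x / Y x ^ 2) x := by
    intro x hx
    have hYx : Y x ≠ 0 := by have := hZY x hx; linarith
    have := (hY' x (hsub hx)).inv hYx
    have h2 : HasDerivAt (fun s => -(Y s)⁻¹) (-(-Y' x / Y x ^ 2)) x := this.neg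
    rw [neg_div, neg_neg] at h2
    exact h2
  have hkey := intervalIntegral.sub_le_integral_of_hasDeriv_right_of_le (a := s₀) (b := s₀ + L)
    (g := fun s => -(Y s)⁻¹) (g' := fun x => Y' x / Y x ^ 2) (φ := fun s => α + β * G s) hle
    (fun x hx => (hder x hx).continuousAt.continuousWithinAt)
    (fun x hx => (hder x (Ioo_subset_Icc_self hx)).hasDerivWithinAt)
    hint.1 (fun x hx => hpt x (Ioo_subset_Icc_self hx))
  rw [hint.2] at hkey
  have hGL : ∫ s in s₀..(s₀ + L), G s ≤ D := by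
    refine le_trans ?_ hGD
    apply intervalIntegral.integral_mono_interval le_rfl hle (by rw [hL]; linarith)
    · exact Filter.Eventually.of_forall hG
    · rw [intervalIntegrable_iff_integrableOn_Icc_of_le h01.le]; exact hGi
  have hβ0 : 0 ≤ β := by rw [hβ]; positivity
  have hk2 : -(Y (s₀ + L))⁻¹ - -(Y s₀)⁻¹ ≤ α * L + β * D := by
    refine hkey.trans ?_
    have := mul_le_mul_of_nonneg_left hGL hβ0
    have e : s₀ + L - s₀ = L := by ring
    rw [e]; linarith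
  have hY1 : (Y (s₀ + L))⁻¹ ≤ Z⁻¹ :=
    inv_anti₀ hZ0 (hZY _ ⟨hle, le_rfl⟩).le
  have hY2 : 0 < (Y s₀)⁻¹ := by
    have := hZY s₀ ⟨le_rfl, hle⟩
    have : 0 < Y s₀ := by linarith
    positivity
  have hfin : 0 < Z⁻¹ + α * L + β * D := by linarith
  -- contradiction
  have hval : α * L + β * D = -(L ^ 2 / (4 * (L + D))) + Q * (L + D) / Z ^ 2 + 2 * Q * L / (P * Z) := by
    rw [hα, hβ, hθ]; field_simp; ring
  have hfin2 : L ^ 2 / (4 * (L + D)) < Z⁻¹ + Q * (L + D) / Z ^ 2 + 2 * Q * L / (P * Z) := by linarith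
  have hfin3 : L ^ 2 / (4 * (L + D)) * (P * Z) < P + P * (Q * (L + D) / Z) + 2 * Q * L := by
    have := mul_lt_mul_of_pos_right hfin2 (mul_pos hP0 hZ0)
    have e : (Z⁻¹ + Q * (L + D) / Z ^ 2 + 2 * Q * L / (P * Z)) * (P * Z)
        = P + P * (Q * (L + D) / Z) + 2 * Q * L := by field_simp
    rw [e] at this; exact this
  have e1 : L ^ 2 / (4 * (L + D)) * (P * Z) = 8 * (1 + Q) * (1 + D) ^ 2 / (L + D) := by
    have : L ^ 2 / (4 * (L + D)) * (P * Z) = (Z * (P * L ^ 2)) / (4 * (L + D)) := by ring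
    rw [this, hZe]; field_simp; ring
  rw [e1] at hfin3
  have e2 : 8 * (1 + Q) ≤ 8 * (1 + Q) * (1 + D) ^ 2 / (L + D) := by
    rw [le_div_iff₀ hLD]
    have a2 : L + D ≤ (1 + D) ^ 2 := by nlinarith
    have a3 := mul_le_mul_of_nonneg_left a2 (show 0 ≤ 8 * (1 + Q) by positivity)
    linarith
  have e3 : P * (Q * (L + D) / Z) ≤ 1 := by
    have : Q * (L + D) / Z ≤ 1 := by
      rw [div_le_one hZ0, hZ, le_div_iff₀ hPL]
      have a1 : Q * (L + D) * (P * L ^ 2) ≤ Q * (L + D) * 1 := by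
        apply mul_le_mul_of_nonneg_left hPL1 (by positivity)
      have a2 : L + D ≤ (1 + D) ^ 2 := by nlinarith
      have a3 : Q * (L + D) ≤ Q * (1 + D) ^ 2 := mul_le_mul_of_nonneg_left a2 hQ
      have a4 : Q * (1 + D) ^ 2 ≤ (1 + Q) * (1 + D) ^ 2 :=
        mul_le_mul_of_nonneg_right (by linarith) (sq_nonneg _)
      have a5 : 0 ≤ (1 + Q) * (1 + D) ^ 2 := by positivity
      linarith
    have h0 : 0 ≤ Q * (L + D) / Z := by positivity
    calc P * (Q * (L + D) / Z) ≤ 1 * (Q * (L + D) / Z) := mul_le_mul_of_nonneg_right hP1 h0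
      _ ≤ 1 := by linarith
  have e4 : 2 * Q * L ≤ Q := by nlinarith
  linarith

theorem t_ODE : S_ODE := by
  intro s₀ s₁ D Q P l Y A B G Y' h01 hP hP1 hQ hD hl hl1 hY hY' hA hB hAc hBc hG hGi hGD hd hi
  obtain ⟨t₀, ht₀, hYt⟩ := good h01 hP hP1 hQ hD hY' hG hGi hGD hd hi
  set Z : ℝ := 32 * (1 + Q) * (1 + D) ^ 2 / (P * ((s₁ - s₀) / 2) ^ 2) with hZ
  have hP0 : 0 < P := by linarith
  refine ⟨t₀, ht₀, ?_⟩
  intro t ht
  have ht01 : t₀ ≤ s₁ := ht.1.trans ht.2
  have hsub : Icc t₀ t ⊆ Icc s₀ s₁ := Icc_subset_Icc ht₀.1 ht.2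
  have hGi' : IntegrableOn G (Icc t₀ t) := hGi.mono_set hsub
  have hBi : IntervalIntegrable B volume t₀ t := by
    apply ContinuousOn.intervalIntegrable
    rw [uIcc_of_le ht.1]; exact hBc.mono hsub
  have hBi' : IntegrableOn B (Icc t₀ t) := by
    rw [← intervalIntegrable_iff_integrableOn_Icc_of_le ht.1]; exact hBi
  have hder : ∀ x ∈ Icc t₀ t, HasDerivAt (fun s => (1 + Y s) * Real.exp (-(Q / P) * (s - t₀)))
      ((Y' x - Q / P * (1 + Y x)) * Real.exp (-(Q / P) * (x - t₀))) x := by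
    intro x hx
    have h1 := (hY' x (hsub hx)).const_add 1
    have h2 : HasDerivAt (fun s => Real.exp (-(Q / P) * (s - t₀)))
        (Real.exp (-(Q / P) * (x - t₀)) * (-(Q / P) * 1)) x :=
      (((hasDerivAt_id x).sub_const t₀).const_mul (-(Q / P))).exp
    have h3 : HasDerivAt (fun s => (1 + Y s) * Real.exp (-(Q / P) * (s - t₀)))
        (Y' x * Real.exp (-(Q / P) * (x - t₀))
          + (1 + Y x) * (Real.exp (-(Q / P) * (x - t₀)) * (-(Q / P) * 1))) x := h1.mul h2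
    exact h3.congr_deriv (by ring)
  have hint := aff_int (α := Q) (β := Q) ht.1 hGi'
  have hexp : ∀ x ∈ Icc t₀ t, Real.exp (-Q) ≤ Real.exp (-(Q / P) * (x - t₀)) ∧
      Real.exp (-(Q / P) * (x - t₀)) ≤ 1 := by
    intro x hx
    have hx1 : 0 ≤ x - t₀ := by linarith [hx.1]
    have hx2 : x - t₀ ≤ P := by linarith [hx.2, ht.2, ht₀.1]
    constructor
    · apply Real.exp_le_exp.mpr
      have : Q / P * (x - t₀) ≤ Q := by
        rw [div_mul_eq_mul_div, div_le_iff₀ hP0]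
        exact mul_le_mul_of_nonneg_left hx2 hQ
      linarith
    · apply Real.exp_le_one_iff.mpr
      have : 0 ≤ Q / P * (x - t₀) := by positivity
      linarith
  have hkey := intervalIntegral.sub_le_integral_of_hasDeriv_right_of_le (a := t₀) (b := t)
    (g := fun s => (1 + Y s) * Real.exp (-(Q / P) * (s - t₀)))
    (g' := fun x => (Y' x - Q / P * (1 + Y x)) * Real.exp (-(Q / P) * (x - t₀)))
    (φ := fun s => (Q + Q * G s) + -(Real.exp (-Q) * l) * B s) ht.1
    (fun x hx => (hder x hx).continuousAt.continuousWithinAt)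
    (fun x hx => (hder x (Ioo_subset_Icc_self hx)).hasDerivWithinAt)
    (hint.1.add (hBi'.const_mul _)) (by
      intro x hx'
      have hx := Ioo_subset_Icc_self hx'
      have h1 := hd x (hsub hx)
      obtain ⟨e1, e2⟩ := hexp x hx
      have h0 := Real.exp_pos (-(Q / P) * (x - t₀))
      have hAx := hA x (hsub hx)
      have hBx := hB x (hsub hx)
      have hGx := hG x
      have h2 : Y' x - Q / P * (1 + Y x) ≤ -(l * B x) + Q * (1 + G x) := by linarith
      have h3 := mul_le_mul_of_nonneg_right h2 h0.le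
      refine h3.trans ?_
      have h4 : Real.exp (-Q) * (l * B x) ≤ Real.exp (-(Q / P) * (x - t₀)) * (l * B x) :=
        mul_le_mul_of_nonneg_right e1 (by positivity)
      have h5 : Real.exp (-(Q / P) * (x - t₀)) * (Q * (1 + G x)) ≤ 1 * (Q * (1 + G x)) :=
        mul_le_mul_of_nonneg_right e2 (by positivity)
      nlinarith)
  have hBint : IntervalIntegrable (fun s => -(Real.exp (-Q) * l) * B s) volume t₀ t := hBi.const_mul _
  have hGint : IntervalIntegrable (fun s => Q + Q * G s) volume t₀ t := by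
    rw [intervalIntegrable_iff_integrableOn_Icc_of_le ht.1]; exact hint.1
  rw [intervalIntegral.integral_add hGint hBint, hint.2, intervalIntegral.integral_const_mul] at hkey
  have hGL : ∫ s in t₀..t, G s ≤ D := by
    refine le_trans ?_ hGD
    apply intervalIntegral.integral_mono_interval ht₀.1 ht.1 ht.2
    · exact Filter.Eventually.of_forall hG
    · rw [intervalIntegrable_iff_integrableOn_Icc_of_le h01.le]; exact hGi
  obtain ⟨e1, -⟩ := hexp t ⟨ht.1, le_rfl⟩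
  have hYt' := hY t (hsub ⟨ht.1, le_rfl⟩)
  have hlen : t - t₀ ≤ 1 := by linarith [ht.2, ht₀.1]
  simp only [sub_self, mul_zero, Real.exp_zero, mul_one] at hkey
  have h6 : (1 + Y t) * Real.exp (-Q) ≤ (1 + Y t) * Real.exp (-(Q / P) * (t - t₀)) :=
    mul_le_mul_of_nonneg_left e1 (by linarith)
  have h7 : Q * ∫ s in t₀..t, G s ≤ Q * D := mul_le_mul_of_nonneg_left hGL hQ
  have h8 : Q * (t - t₀) ≤ Q := by nlinarith
  have h9 : Real.exp (-Q) * (Y t + l * ∫ s in t₀..t, B s) ≤ 1 + Z + Q * (1 + D) := by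
    have := Real.exp_pos (-Q)
    nlinarith
  have h10 : Y t + l * ∫ s in t₀..t, B s
      = Real.exp Q * (Real.exp (-Q) * (Y t + l * ∫ s in t₀..t, B s)) := by
    rw [← mul_assoc, ← Real.exp_add]; simp
  rw [h10]
  exact mul_le_mul_of_nonneg_left h9 (Real.exp_pos Q).le

end Pool.Agent.D0H13.IW
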